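import Mathlib
import Pool.Agent.H41.ET.Defs

set_option autoImplicit false

/-!
# Counting relabellings with many prescribed edges
-/

namespace Pool.Agent.H299.ET

open Pool.Agent.H41.ET Finset

section

variable {V T : Type} [Fintype V] [DecidableEq V]

open Classical in
/-- the permutations compatible with the pairs of `s` -/
noncomputable def Qs (O : V → V) (a b : T → V) (s : Finset T) : Finset (Equiv.Perm V) :=
  Finset.univ.filter fun q => ∀ t ∈ s, O (q (a t)) = q (b t)

theorem mem_Qs (O : V → V) (a b : T → V) (s : Finset T) (q : Equiv.Perm V) :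
    q ∈ Qs O a b s ↔ ∀ t ∈ s, O (q (a t)) = q (b t) := by
  unfold Qs
  rw [Finset.mem_filter]
  exact ⟨fun h => h.2, fun h => ⟨Finset.mem_univ _, h⟩⟩

theorem Qs_insert [DecidableEq T] {O : V → V} {a b : T → V} (hb : Function.Injective b)
    {s : Finset T} {t : T} (ht : t ∉ s) (hab : a t ≠ b t) (hd : ∀ t' ∈ s, a t' ≠ b t) :
    (Qs O a b (insert t s)).card * (Fintype.card V - 1 - 2 * s.card) ≤ (Qs O a b s).card := by
  obtain ⟨P, hPdef⟩ : ∃ P : Finset V, P = univ \ (s.image a ∪ s.image b ∪ {a t}) := ⟨_, rfl⟩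
  have hmem : ∀ v ∈ P, (∀ t' ∈ s, a t' ≠ v) ∧ (∀ t' ∈ s, b t' ≠ v) ∧ a t ≠ v := by
    intro v hv
    rw [hPdef, mem_sdiff] at hv
    refine ⟨fun t' ht' he => ?_, fun t' ht' he => ?_, fun he => ?_⟩
    · exact hv.2 (mem_union_left _ (mem_union_left _ (mem_image.2 ⟨t', ht', he⟩)))
    · exact hv.2 (mem_union_left _ (mem_union_right _ (mem_image.2 ⟨t', ht', he⟩)))
    · exact hv.2 (mem_union_right _ (mem_singleton.2 he.symm))
  have hP : Fintype.card V - 1 - 2 * s.card ≤ P.card := by
    have h1 : (s.image a ∪ s.image b ∪ {a t}).card ≤ 2 * s.card + 1 := by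
      have e1 := card_union_le (s.image a ∪ s.image b) {a t}
      have e2 := card_union_le (s.image a) (s.image b)
      have e3 := card_image_le (s := s) (f := a)
      have e4 := card_image_le (s := s) (f := b)
      rw [card_singleton] at e1
      omega
    have h2 := le_card_sdiff (s.image a ∪ s.image b ∪ {a t}) (univ : Finset V)
    rw [card_univ, ← hPdef] at h2
    omega
  refine (Nat.mul_le_mul_left _ hP).trans ?_
  rw [← card_product]
  refine card_le_card_of_injOn (fun x => x.1 * Equiv.swap (b t) x.2) ?_ ?_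
  · rintro ⟨q, v⟩ hx
    obtain ⟨hq, hv⟩ := mem_product.1 (mem_coe.1 hx)
    obtain ⟨h1, h2, h3⟩ := hmem v hv
    rw [mem_Qs] at hq
    refine mem_coe.2 ((mem_Qs O a b s _).2 fun t' ht' => ?_)
    have hne : t' ≠ t := fun h => ht (h ▸ ht')
    rw [Equiv.Perm.mul_apply, Equiv.Perm.mul_apply,
      Equiv.swap_apply_of_ne_of_ne (hd t' ht') (h1 t' ht'),
      Equiv.swap_apply_of_ne_of_ne (fun h => hne (hb h)) (h2 t' ht')]
    exact hq t' (mem_insert_of_mem ht')
  · rintro ⟨q, v⟩ hx ⟨q', v'⟩ hx' he
    obtain ⟨hq, hv⟩ := mem_product.1 (mem_coe.1 hx)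
    obtain ⟨hq', hv'⟩ := mem_product.1 (mem_coe.1 hx')
    obtain ⟨h1, h2, h3⟩ := hmem v hv
    obtain ⟨h1', h2', h3'⟩ := hmem v' hv'
    rw [mem_Qs] at hq hq'
    have he' : q * Equiv.swap (b t) v = q' * Equiv.swap (b t) v' := he
    have e1 : q (a t) = q' (a t) := by
      have := congrArg (fun f : Equiv.Perm V => f (a t)) he'
      simp only [Equiv.Perm.mul_apply] at this
      rwa [Equiv.swap_apply_of_ne_of_ne hab h3, Equiv.swap_apply_of_ne_of_ne hab h3'] at this
    have e2 : q (b t) = q' (b t) := by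
      rw [← hq t (mem_insert_self _ _), ← hq' t (mem_insert_self _ _), e1]
    have e3 : (q' * Equiv.swap (b t) v') v = (q' * Equiv.swap (b t) v') v' := by
      rw [← he', Equiv.Perm.mul_apply, Equiv.swap_apply_right, he', Equiv.Perm.mul_apply,
        Equiv.swap_apply_right, e2]
    have e4 : v = v' := (q' * Equiv.swap (b t) v').injective e3
    subst e4
    have e5 : q = q' := mul_right_cancel he'
    rw [e5]

theorem Qs_card [DecidableEq T] {O : V → V} {a b : T → V} (hb : Function.Injective b)
    (s : Finset T) (hd : ∀ t ∈ s, ∀ t' ∈ s, a t ≠ b t') :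
    (Qs O a b s).card * ∏ i ∈ range s.card, (Fintype.card V - 1 - 2 * i) ≤
      (Fintype.card V).factorial := by
  induction s using Finset.induction_on with
  | empty =>
    rw [card_empty, range_zero, prod_empty, mul_one, ← Fintype.card_perm]
    exact card_le_univ _
  | insert t s ht ih =>
    rw [card_insert_of_notMem ht, prod_range_succ]
    have h1 := Qs_insert (O := O) hb ht (hd t (mem_insert_self _ _) t (mem_insert_self _ _))
      (fun t' ht' => hd t' (mem_insert_of_mem ht') t (mem_insert_self _ _))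
    calc (Qs O a b (insert t s)).card *
          ((∏ i ∈ range s.card, (Fintype.card V - 1 - 2 * i)) * (Fintype.card V - 1 - 2 * s.card))
        = (Qs O a b (insert t s)).card * (Fintype.card V - 1 - 2 * s.card) *
          ∏ i ∈ range s.card, (Fintype.card V - 1 - 2 * i) := by ring
      _ ≤ (Qs O a b s).card * ∏ i ∈ range s.card, (Fintype.card V - 1 - 2 * i) :=
        Nat.mul_le_mul_right _ h1
      _ ≤ _ := ih fun t1 h1 t2 h2 => hd t1 (mem_insert_of_mem h1) t2 (mem_insert_of_mem h2)

omit [Fintype V] in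
theorem sel [DecidableEq T] {a b : T → V} (hb : Function.Injective b) (hab : ∀ t, a t ≠ b t)
    (h : ℕ) : ∀ U : Finset T, (∀ t ∈ U, ∀ t' ∈ U, a t = b t' → a t' = b t) → 2 * h ≤ U.card →
      ∃ s ⊆ U, s.card = h ∧ ∀ t ∈ s, ∀ t' ∈ s, a t ≠ b t' := by
  induction h with
  | zero =>
    intro U _ _
    exact ⟨∅, empty_subset _, rfl, fun t ht => absurd ht (notMem_empty t)⟩
  | succ h ih =>
    intro U hU hc
    obtain ⟨t, ht⟩ : U.Nonempty := card_pos.1 (by omega)
    have h1 : U ⊆ (U.filter fun t' => t' ≠ t ∧ a t ≠ b t') ∪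
        ({t} ∪ U.filter fun t' => a t = b t') := by
      intro x hx
      by_cases e1 : x = t
      · exact mem_union_right _ (mem_union_left _ (mem_singleton.2 e1))
      by_cases e2 : a t = b x
      · exact mem_union_right _ (mem_union_right _ (mem_filter.2 ⟨hx, e2⟩))
      · exact mem_union_left _ (mem_filter.2 ⟨hx, e1, e2⟩)
    have h2 : (U.filter fun t' => a t = b t').card ≤ 1 := by
      refine card_le_one.2 fun x hx y hy => hb ?_
      exact (mem_filter.1 hx).2.symm.trans (mem_filter.1 hy).2
    have h3 := card_le_card h1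
    have h4 := card_union_le (U.filter fun t' => t' ≠ t ∧ a t ≠ b t')
      ({t} ∪ U.filter fun t' => a t = b t')
    have h5 := card_union_le {t} (U.filter fun t' => a t = b t')
    rw [card_singleton] at h5
    obtain ⟨s, hs, hsc, hsd⟩ := ih (U.filter fun t' => t' ≠ t ∧ a t ≠ b t')
      (fun x hx y hy => hU x (mem_filter.1 hx).1 y (mem_filter.1 hy).1) (by omega)
    have hts : t ∉ s := fun h => (mem_filter.1 (hs h)).2.1 rfl
    refine ⟨insert t s, insert_subset ht (hs.trans (filter_subset _ _)),
      by rw [card_insert_of_notMem hts, hsc], ?_⟩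
    intro x hx y hy
    rcases mem_insert.1 hx with e | hx'
    · rcases mem_insert.1 hy with e' | hy'
      · rw [e, e']
        exact hab t
      · rw [e]
        exact (mem_filter.1 (hs hy')).2.2
    · rcases mem_insert.1 hy with e' | hy'
      · rw [e']
        intro he
        have g1 := mem_filter.1 (hs hx')
        exact g1.2.2 (hU x g1.1 t ht he)
      · exact hsd x hx' y hy'

end

theorem cntC : S_CNTC := by
  intro d h V T _ _ _ O a b hV hT hO ha hb hab h3
  classical
  obtain ⟨W, hWdef⟩ : ∃ W : ℕ, W = ∏ i ∈ range h, (Fintype.card V - 1 - 2 * i) := ⟨_, rfl⟩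
  obtain ⟨I, hIdef⟩ : ∃ I : Finset (Finset T), I = ((univ : Finset T).powersetCard h).filter
    (fun s => ∀ t ∈ s, ∀ t' ∈ s, a t ≠ b t') := ⟨_, rfl⟩
  have hsub : {p : Equiv.Perm V | 2 * h ≤ {t | cj p O (a t) = b t}.ncard} ⊆
      ↑(I.biUnion fun s => (Qs O a b s).image (fun q => q.symm)) := by
    intro p hp
    have hp' : 2 * h ≤ {t | cj p O (a t) = b t}.ncard := hp
    have e1 : {t | cj p O (a t) = b t} =
        ((univ.filter fun t => cj p O (a t) = b t : Finset T) : Set T) := by
      ext t
      simp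
    rw [e1, Set.ncard_coe_finset] at hp'
    have hinv : ∀ x, cj p O (cj p O x) = x := by
      intro x
      unfold cj
      rw [Equiv.symm_apply_apply, hO.1, Equiv.apply_symm_apply]
    obtain ⟨s, hs, hsc, hsd⟩ := sel hb hab h (univ.filter fun t => cj p O (a t) = b t)
      (fun t ht t' ht' he => by
        have g1 := (mem_filter.1 ht).2
        have g2 := (mem_filter.1 ht').2
        rw [← g1, he, ← g2, hinv]) hp'
    refine mem_coe.2 (mem_biUnion.2 ⟨s, ?_, mem_image.2 ⟨p.symm, ?_, Equiv.symm_symm p⟩⟩)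
    · rw [hIdef]
      exact mem_filter.2 ⟨mem_powersetCard.2 ⟨subset_univ _, hsc⟩, hsd⟩
    · rw [mem_Qs]
      intro t ht
      have g1 : p (O (p.symm (a t))) = b t := (mem_filter.1 (hs ht)).2
      rw [← g1, Equiv.symm_apply_apply]
  have hcard : {p : Equiv.Perm V | 2 * h ≤ {t | cj p O (a t) = b t}.ncard}.ncard ≤
      ∑ s ∈ I, (Qs O a b s).card := by
    refine (Set.ncard_le_ncard hsub (finite_toSet _)).trans ?_
    rw [Set.ncard_coe_finset]
    exact card_biUnion_le.trans (sum_le_sum fun s _ => card_image_le)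
  have hI : I.card ≤ (2 * d - 1).choose h := by
    rw [hIdef]
    refine (card_le_card (filter_subset _ _)).trans ?_
    rw [card_powersetCard, card_univ]
    exact Nat.choose_le_choose _ hT
  have hW1 : {p : Equiv.Perm V | 2 * h ≤ {t | cj p O (a t) = b t}.ncard}.ncard * W ≤
      (2 * d - 1).choose h * (2 * d).factorial := by
    refine (Nat.mul_le_mul_right _ hcard).trans ?_
    rw [sum_mul]
    refine (sum_le_card_nsmul I _ ((2 * d).factorial) fun s hs => ?_).trans ?_
    · rw [hIdef] at hs
      have g1 := mem_filter.1 hs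
      have g2 := (mem_powersetCard.1 g1.1).2
      have g3 := Qs_card (O := O) hb s g1.2
      rw [g2, ← hWdef] at g3
      rw [hV] at g3
      exact g3
    · rw [smul_eq_mul]
      exact Nat.mul_le_mul_right _ hI
  have hW2 : h.factorial * (2 * d - 1).choose h ≤ 2 ^ h * W := by
    rw [← Nat.descFactorial_eq_factorial_mul_choose, Nat.descFactorial_eq_prod_range, hWdef,
      ← card_range h, ← prod_const, card_range, ← prod_mul_distrib]
    refine prod_le_prod (fun i _ => Nat.zero_le _) fun i hi => ?_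
    have hi' := mem_range.1 hi
    omega
  have hW0 : 0 < W := by
    rw [hWdef]
    refine prod_pos fun i hi => ?_
    have hi' := mem_range.1 hi
    omega
  refine Nat.le_of_mul_le_mul_right ?_ hW0
  calc {p : Equiv.Perm V | 2 * h ≤ {t | cj p O (a t) = b t}.ncard}.ncard * h.factorial * W
      = {p : Equiv.Perm V | 2 * h ≤ {t | cj p O (a t) = b t}.ncard}.ncard * W * h.factorial := by
        ring
    _ ≤ (2 * d - 1).choose h * (2 * d).factorial * h.factorial := Nat.mul_le_mul_right _ hW1
    _ = h.factorial * (2 * d - 1).choose h * (2 * d).factorial := by ring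
    _ ≤ 2 ^ h * W * (2 * d).factorial := Nat.mul_le_mul_right _ hW2
    _ = 2 ^ h * (2 * d).factorial * W := by ring

end Pool.Agent.H299.ET
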